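import Mathlib
import Pool.Agent.TH447.KS.SemiFin
import Pool.Agent.TH153.WX.Gap
import Pool.Agent.Y491.ID.Main

/-! # A large class of posets with the gap above one third -/

open Finset

set_option autoImplicit false

namespace Pool.Agent.Q288.Bal

open Pool.Agent.H13R3.WB Pool.Agent.H931R3.Bal Pool.Agent.TH447.KS Pool.Agent.TH153.WX

/-- The basic posets: nonempty posets of width at most two, semiorders, interval orders of width at
least `45000`, and posets in which some element is incomparable to at least `K` elements. -/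
def Basic (K : ℕ) (P : Type) [PartialOrder P] : Prop :=
  Nonempty P ∧
    ((∀ s : Finset P, IsAntichain (· ≤ ·) (s : Set P) → s.card ≤ 2) ∨
      IsSemiorder P ∨
      (IsIntervalOrder P ∧ ∃ w : ℕ, 45000 ≤ w ∧ HasWidth P w) ∨
      ∃ x : P, K ≤ Nat.card {y : P // ¬ x ≤ y ∧ ¬ y ≤ x})

/-- The smallest class of posets which contains the basic posets, is closed under isomorphism,
disjoint sums and direct sums, and contains every poset that has a nonempty autonomous subset in the
class which is not in `𝒟`. -/
inductive Cls (K : ℕ) : (P : Type) → [PartialOrder P] → Prop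
  | basic (P : Type) [PartialOrder P] : Basic K P → Cls K P
  | disj (P Q R : Type) [PartialOrder P] [PartialOrder Q] [PartialOrder R] :
      Cls K P → Cls K Q → Nonempty (R ≃o (P ⊕ Q)) → Cls K R
  | direct (P Q R : Type) [PartialOrder P] [PartialOrder Q] [PartialOrder R] :
      Cls K P → Cls K Q → Nonempty (R ≃o (P ⊕ₗ Q)) → Cls K R
  | auto (R : Type) [PartialOrder R] (M : Set R) :
      M.Nonempty → Autonomous M → Cls K M → ¬ InD M → Cls K R

lemma log_45000 : Real.log 45000 ≤ 31 / 2 * Real.log 2 := by
  have h1 : Real.log ((45000 : ℝ) ^ 2) ≤ Real.log ((2 : ℝ) ^ 31) :=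
    Real.log_le_log (by norm_num) (by norm_num)
  rw [Real.log_pow, Real.log_pow] at h1
  push_cast at h1
  linarith

lemma interval_num (w : ℕ) (hw : 45000 ≤ w) :
    3 * (1 + Real.log w) / Real.sqrt w ≤ 1 / 2 - (1 / 3 + 1 / 3000000) := by
  have hwR : (45000 : ℝ) ≤ w := by exact_mod_cast hw
  have hs : (212 : ℝ) ≤ Real.sqrt w := by
    apply Real.le_sqrt_of_sq_le
    linarith
  have hspos : 0 < Real.sqrt w := by linarith
  have hlog : Real.log w ≤ Real.log 45000 + 2 * (Real.sqrt w / 212 - 1) := by
    have e1 : Real.log w = 2 * Real.log (Real.sqrt w) := by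
      rw [Real.log_sqrt (by linarith)]; ring
    have e2 : Real.log (Real.sqrt w) = Real.log (Real.sqrt w / 212) + Real.log 212 := by
      rw [Real.log_div hspos.ne' (by norm_num)]; ring
    have e3 : Real.log (Real.sqrt w / 212) ≤ Real.sqrt w / 212 - 1 :=
      Real.log_le_sub_one_of_pos (by positivity)
    have e4 : 2 * Real.log 212 ≤ Real.log 45000 := by
      have : Real.log ((212 : ℝ) ^ 2) ≤ Real.log 45000 :=
        Real.log_le_log (by norm_num) (by norm_num)
      rw [Real.log_pow] at this
      push_cast at this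
      exact this
    rw [e1, e2]
    linarith
  have h45 := log_45000
  have h2 := Real.log_two_lt_d9
  rw [div_le_iff₀ hspos]
  nlinarith

lemma gam_ge : (1 / 3 + 1 / 3000000 : ℝ) ≤ gam := by
  have h : √433 ≤ 21 := by
    rw [Real.sqrt_le_left (by norm_num)]
    norm_num
  unfold gam
  rw [le_div_iff₀ (by norm_num)]
  linarith

/-- the size of the thinness constant -/
def Good (K : ℕ) : Prop := ∀ (P : Type) [Fintype P] [PartialOrder P] (x : P),
  K ≤ Nat.card {y : P // ¬ x ≤ y ∧ ¬ y ≤ x} → 5 / 14 ≤ balance P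

lemma exists_good : ∃ K : ℕ, Good K := by
  obtain ⟨B, -, h⟩ := Pool.Agent.Y491.ID.incomparable_balance
  obtain ⟨K, hK⟩ := exists_nat_ge
    (Real.exp (B * Real.log (2 / (1 / 7)) ^ 3 / (1 / 7 : ℝ) ^ 4))
  refine ⟨K, fun P _ _ x hx => ?_⟩
  have hx' : (K : ℝ) ≤ Nat.card {y : P // ¬ x ≤ y ∧ ¬ y ≤ x} := by exact_mod_cast hx
  have := h (1 / 7) (by norm_num) (by norm_num) P x (hK.trans hx')
  linarith

lemma basic_gap {K : ℕ} (hK : Good K) (P : Type) [Fintype P] [PartialOrder P] (h : Basic K P) :
    Nonempty P ∧ (InD P ∨ 1 / 3 + 1 / 3000000 ≤ balance P) := by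
  obtain ⟨hne, h⟩ := h
  refine ⟨hne, ?_⟩
  rcases h with h | h | ⟨h, w, hw, hP⟩ | ⟨x, hx⟩
  · rcases width_two_gap P h with h | h
    · exact Or.inl h
    · exact Or.inr (gam_ge.trans h)
  · exact semi_gap _ P rfl h
  · right
    have h1 := interval_balance P h w (by omega) hP
    have h2 := interval_num w hw
    linarith
  · right
    have := hK P x hx
    linarith

theorem cls_gap {K : ℕ} (hK : Good K) {R : Type} [PartialOrder R] (h : Cls K R) :
    ∀ [Fintype R], Nonempty R ∧ (InD R ∨ 1 / 3 + 1 / 3000000 ≤ balance R) := by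
  induction h with
  | basic P h => intro _; exact basic_gap hK P h
  | disj P Q R _ _ e ihP ihQ =>
    intro hR
    obtain ⟨e⟩ := e
    have fP : Finite P := Finite.of_injective (fun x : P => e.symm (Sum.inl x))
      (fun a b h => Sum.inl_injective (e.symm.injective h))
    have fQ : Finite Q := Finite.of_injective (fun x : Q => e.symm (Sum.inr x))
      (fun a b h => Sum.inr_injective (e.symm.injective h))
    have := Fintype.ofFinite P
    have := Fintype.ofFinite Q
    have nP : Nonempty P := (ihP).1
    have nQ : Nonempty Q := (ihQ).1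
    refine ⟨⟨e.symm (Sum.inl nP.some)⟩, ?_⟩
    have nS : Nonempty (P ⊕ Q) := ⟨Sum.inl nP.some⟩
    rcases gap_sum (c := 1 / 3 + 1 / 3000000) (by norm_num) ihP.2 ihQ.2 with h3 | h3
    · exact Or.inl (InD.iso h3 e.symm)
    · exact Or.inr (h3.trans (balance_iso e.symm))
  | direct P Q R _ _ e ihP ihQ =>
    intro hR
    obtain ⟨e⟩ := e
    have fP : Finite P := Finite.of_injective (fun x : P => e.symm (toLex (Sum.inl x)))
      (fun a b h => Sum.inl_injective (toLex.injective (e.symm.injective h)))
    have fQ : Finite Q := Finite.of_injective (fun x : Q => e.symm (toLex (Sum.inr x)))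
      (fun a b h => Sum.inr_injective (toLex.injective (e.symm.injective h)))
    have := Fintype.ofFinite P
    have := Fintype.ofFinite Q
    have nP : Nonempty P := (ihP).1
    have nQ : Nonempty Q := (ihQ).1
    refine ⟨⟨e.symm (toLex (Sum.inl nP.some))⟩, ?_⟩
    have nS : Nonempty (P ⊕ₗ Q) := ⟨toLex (Sum.inl nP.some)⟩
    rcases gap_lex (c := 1 / 3 + 1 / 3000000) ihP.2 ihQ.2 with h3 | h3
    · exact Or.inl (InD.iso h3 e.symm)
    · exact Or.inr (h3.trans (balance_iso e.symm))
  | auto R M hne hM _ hD ih =>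
    intro hR
    have fM : Finite M := inferInstance
    have := Fintype.ofFinite M
    have nM : Nonempty M := hne.to_subtype
    refine ⟨⟨hne.some⟩, Or.inr ?_⟩
    rcases (ih).2 with h | h
    · exact absurd h hD
    · exact h.trans (balance_autonomous hM)

theorem cls_reduction {K : ℕ} (hK : Good K) {c : ℝ} (hc : c ≤ 1 / 3 + 1 / 3000000)
    (h : ∀ (P : Type) [Fintype P] [PartialOrder P] [Nonempty P], Irreducible P → ¬ Cls K P →
      c ≤ balance P) :
    ∀ (P : Type) [Fintype P] [PartialOrder P] [Nonempty P], InD P ∨ c ≤ balance P := by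
  refine reduction (hc.trans (by norm_num)) fun P _ _ _ hI => ?_
  by_cases hP : Cls K P
  · rcases (cls_gap hK hP).2 with h1 | h1
    · exact Or.inl h1
    · exact Or.inr (hc.trans h1)
  · exact Or.inr (h P hI hP)

end Pool.Agent.Q288.Bal
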