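import Mathlib
import Pool.Agent.Q288.Bal.Cls
import Pool.Agent.TH447.KL.IncRate

/-! # The minimal balance constant of width `w` is determined by thin posets without large
autonomous subsets -/

open Finset

set_option autoImplicit false

namespace Pool.Agent.Q288.Bal

open Pool.Agent.H13R3.WB Pool.Agent.H931R3.Bal Pool.Agent.TH447.KS Pool.Agent.TH153.WX
open Pool.Agent.TH447.KL

/-- every element is incomparable to fewer than `k` elements -/
def ThinLt (P : Type) [PartialOrder P] (k : ℝ) : Prop :=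
  ∀ x : P, (Nat.card {y : P // ¬ x ≤ y ∧ ¬ y ≤ x} : ℝ) < k

/-- no proper autonomous subset has width `w` -/
def NoAut (P : Type) [PartialOrder P] (w : ℕ) : Prop :=
  ∀ M : Set P, Autonomous M → M ≠ Set.univ → ¬ HasWidth M w

/-- The bound `exp (B (log 48 w)³ (24 w)⁴)`. -/
noncomputable def thinB (B : ℝ) (w : ℕ) : ℝ :=
  Real.exp (B * Real.log (48 * w) ^ 3 * (24 * w) ^ 4)

/-- infimum of the balance constants of the posets of width `w` in which every element is
incomparable to fewer than `thinB B w` elements and no proper autonomous subset has width `w` -/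
noncomputable def dThin (B : ℝ) (w : ℕ) : ℝ :=
  sInf {d : ℝ | ∃ (P : Type) (_ : Fintype P) (_ : PartialOrder P), HasWidth P w ∧
    ThinLt P (thinB B w) ∧ NoAut P w ∧ balance P = d}

lemma nonempty_of_width {P : Type} [PartialOrder P] {w : ℕ} (hw : 1 ≤ w) (h : HasWidth P w) :
    Nonempty P := by
  obtain ⟨⟨s, _, hs⟩, _⟩ := h
  obtain ⟨x, _⟩ := Finset.card_pos.1 (show 0 < s.card by omega)
  exact ⟨x⟩

lemma exists_noAut {w : ℕ} (hw : 1 ≤ w) {k : ℝ} : ∀ (N : ℕ) (P : Type) [Fintype P]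
    [PartialOrder P], Fintype.card P = N → HasWidth P w → ThinLt P k →
    ∃ (Q : Type) (_ : Fintype Q) (_ : PartialOrder Q), HasWidth Q w ∧ ThinLt Q k ∧ NoAut Q w ∧
      balance Q ≤ balance P := by
  intro N
  induction N using Nat.strong_induction_on with
  | _ N ih =>
    intro P _ _ hN hP ht
    by_cases h : NoAut P w
    · exact ⟨P, _, _, hP, ht, h, le_rfl⟩
    unfold NoAut at h
    push Not at h
    obtain ⟨M, hM, hne, hMw⟩ := h
    have fM : Finite M := inferInstance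
    have := Fintype.ofFinite M
    have nM : Nonempty M := nonempty_of_width hw hMw
    have hlt : Fintype.card M < Fintype.card P := by
      rw [← Nat.card_eq_fintype_card, ← Nat.card_eq_fintype_card]
      have h5 : M ⊂ Set.univ := Set.ssubset_univ_iff.2 hne
      have h6 := Set.ncard_lt_ncard h5 (Set.finite_univ)
      rw [Set.ncard_univ] at h6
      exact h6
    have htM : ThinLt M k := by
      intro x
      refine lt_of_le_of_lt ?_ (ht x)
      have : Nat.card {y : M // ¬ x ≤ y ∧ ¬ y ≤ x} ≤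
          Nat.card {y : P // ¬ (x : P) ≤ y ∧ ¬ y ≤ (x : P)} := by
        apply Nat.card_le_card_of_injective
          (fun y : {y : M // ¬ x ≤ y ∧ ¬ y ≤ x} =>
            (⟨(y.1 : P), y.2⟩ : {y : P // ¬ (x : P) ≤ y ∧ ¬ y ≤ (x : P)}))
        intro a b hab
        apply Subtype.ext
        apply Subtype.ext
        have := congrArg Subtype.val hab
        exact this
      exact_mod_cast this
    obtain ⟨Q, i1, i2, h1, h2, h3, h4⟩ := ih (Fintype.card M) (by omega) M rfl hMw htM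
    exact ⟨Q, i1, i2, h1, h2, h3, h4.trans (balance_autonomous hM)⟩

lemma bdd_thin (B : ℝ) (w : ℕ) (hw : 1 ≤ w) :
    BddBelow {d : ℝ | ∃ (P : Type) (_ : Fintype P) (_ : PartialOrder P), HasWidth P w ∧
      ThinLt P (thinB B w) ∧ NoAut P w ∧ balance P = d} := by
  refine ⟨0, ?_⟩
  rintro d ⟨P, _, _, h1, _, _, rfl⟩
  have := nonempty_of_width hw h1
  exact balance_nonneg

lemma bdd_all (w : ℕ) (hw : 1 ≤ w) :
    BddBelow {d : ℝ | ∃ (P : Type) (_ : Fintype P) (_ : PartialOrder P), HasWidth P w ∧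
      balance P = d} := by
  refine ⟨0, ?_⟩
  rintro d ⟨P, _, _, h1, rfl⟩
  have := nonempty_of_width hw h1
  exact balance_nonneg

lemma card_lt_thinB {B : ℝ} (hB : 1 ≤ B) {w : ℕ} (hw : 1 ≤ w) : (3 * w : ℝ) < thinB B w := by
  have hw1 : (1 : ℝ) ≤ w := by exact_mod_cast hw
  have hlog : 1 ≤ Real.log (48 * w) := by
    rw [Real.le_log_iff_exp_le (by positivity)]
    have := Real.exp_one_lt_d9
    linarith
  have h3 : 1 ≤ Real.log (48 * w) ^ 3 := one_le_pow₀ hlog
  have h4 : (24 * w : ℝ) ≤ (24 * w) ^ 4 := by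
    apply le_self_pow₀ (by linarith) (by norm_num)
  have h5 : (24 * w : ℝ) ≤ B * Real.log (48 * w) ^ 3 * (24 * w) ^ 4 := by
    have h6 : 1 ≤ B * Real.log (48 * w) ^ 3 := one_le_mul_of_one_le_of_one_le hB h3
    have h7 : (0 : ℝ) ≤ (24 * w) ^ 4 := by positivity
    nlinarith
  unfold thinB
  have := Real.add_one_le_exp (B * Real.log (48 * w) ^ 3 * (24 * w) ^ 4)
  linarith

lemma exists_B : ∃ B : ℝ, 1 ≤ B ∧ ∀ w : ℕ, 1 ≤ w →
    ∀ (P : Type) [Fintype P] [PartialOrder P], ¬ ThinLt P (thinB B w) →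
      1 / 2 - 1 / (24 * (w : ℝ)) ≤ balance P := by
  obtain ⟨B, -, h⟩ := Pool.Agent.Y491.ID.incomparable_balance
  refine ⟨max B 1, le_max_right _ _, fun w hw P _ _ hP => ?_⟩
  have hw1 : (1 : ℝ) ≤ w := by exact_mod_cast hw
  unfold ThinLt at hP
  push Not at hP
  obtain ⟨x, hx⟩ := hP
  refine h (1 / (24 * (w : ℝ))) (by positivity) ?_ P x (le_trans ?_ hx)
  · rw [div_le_div_iff₀ (by positivity) (by norm_num)]; linarith
  · unfold thinB
    apply Real.exp_le_exp.2
    have e1 : (2 : ℝ) / (1 / (24 * (w : ℝ))) = 48 * w := by field_simp; ring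
    have e2 : B * Real.log (2 / (1 / (24 * (w : ℝ)))) ^ 3 / (1 / (24 * (w : ℝ))) ^ 4 =
        B * Real.log (48 * w) ^ 3 * (24 * w) ^ 4 := by
      rw [e1]; field_simp
    rw [e2]
    have hlog : 0 ≤ Real.log (48 * w) := Real.log_nonneg (by linarith)
    apply mul_le_mul_of_nonneg_right _ (by positivity)
    exact mul_le_mul_of_nonneg_right (le_max_left _ _) (by positivity)

lemma dAll_up {w : ℕ} (hw : 1 ≤ w) : dAll w ≤ 1 / 2 - 1 / (12 * (w : ℝ) - 8) :=
  (dAll_le_dInc le_rfl w hw).trans (dInc_le le_rfl w hw)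

theorem nonthin_far {B : ℝ} (h : ∀ w : ℕ, 1 ≤ w →
    ∀ (P : Type) [Fintype P] [PartialOrder P], ¬ ThinLt P (thinB B w) →
      1 / 2 - 1 / (24 * (w : ℝ)) ≤ balance P) {w : ℕ} (hw : 1 ≤ w)
    (P : Type) [Fintype P] [PartialOrder P] (hP : ¬ ThinLt P (thinB B w)) :
    dAll w + 1 / (24 * w) ≤ balance P := by
  have hw1 : (1 : ℝ) ≤ w := by exact_mod_cast hw
  have h1 := h w hw P hP
  have h2 := dAll_up hw
  have h3 : 1 / (12 * (w : ℝ)) ≤ 1 / (12 * (w : ℝ) - 8) :=
    one_div_le_one_div_of_le (by linarith) (by linarith)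
  have h4 : 1 / (12 * (w : ℝ)) = 2 * (1 / (24 * (w : ℝ))) := by field_simp; ring
  linarith

theorem dAll_eq_dThin {B : ℝ} (hB : 1 ≤ B) (h : ∀ w : ℕ, 1 ≤ w →
    ∀ (P : Type) [Fintype P] [PartialOrder P], ¬ ThinLt P (thinB B w) →
      1 / 2 - 1 / (24 * (w : ℝ)) ≤ balance P) {w : ℕ} (hw : 1 ≤ w) : dAll w = dThin B w := by
  have hw1 : (1 : ℝ) ≤ w := by exact_mod_cast hw
  obtain ⟨P0, i1, i2, h1, h2, h3⟩ := exists_few w hw
  have ht0 : ThinLt P0 (thinB B w) := by
    intro x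
    refine lt_of_le_of_lt ?_ (card_lt_thinB hB hw)
    have e1 : Nat.card {y : P0 // ¬ x ≤ y ∧ ¬ y ≤ x} ≤ Nat.card P0 :=
      Nat.card_le_card_of_injective Subtype.val Subtype.val_injective
    rw [Nat.card_eq_fintype_card (α := P0)] at e1
    exact_mod_cast e1.trans h2
  obtain ⟨Q0, j1, j2, g1, g2, g3, g4⟩ := exists_noAut hw _ P0 rfl h1 ht0
  apply le_antisymm
  · unfold dAll dThin
    refine csInf_le_csInf (bdd_all w hw) ?_ ?_
    · exact ⟨balance Q0, Q0, j1, j2, g1, g2, g3, rfl⟩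
    · rintro d ⟨P, k1, k2, k3, _, _, k4⟩
      exact ⟨P, k1, k2, k3, k4⟩
  · have hlow : dThin B w ≤ 1 / 2 - 1 / (12 * (w : ℝ) - 8) := by
      unfold dThin
      exact (csInf_le (bdd_thin B w hw) ⟨Q0, j1, j2, g1, g2, g3, rfl⟩).trans (g4.trans h3)
    unfold dAll
    refine le_csInf ⟨balance P0, P0, i1, i2, h1, rfl⟩ ?_
    rintro d ⟨P, _, _, hP, rfl⟩
    by_cases hT : ThinLt P (thinB B w)
    · obtain ⟨Q, k1, k2, m1, m2, m3, m4⟩ := exists_noAut hw _ P rfl hP hT
      refine le_trans ?_ m4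
      unfold dThin
      exact csInf_le (bdd_thin B w hw) ⟨Q, k1, k2, m1, m2, m3, rfl⟩
    · have h5 := h w hw P hT
      have h6 : 1 / (24 * (w : ℝ)) ≤ 1 / (12 * (w : ℝ) - 8) :=
        one_div_le_one_div_of_le (by linarith) (by linarith)
      linarith

theorem dAll_two : dAll 2 = 1 / 3 := by
  apply le_antisymm
  · unfold dAll
    refine (csInf_le (bdd_all 2 (by norm_num)) ⟨EE, inferInstance, inferInstance, width_EE, rfl⟩).trans
      balance_EE_le
  · unfold dAll
    refine le_csInf ⟨balance EE, EE, inferInstance, inferInstance, width_EE, rfl⟩ ?_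
    rintro d ⟨P, _, _, hP, rfl⟩
    have hne := nonempty_of_width (by norm_num) hP
    rcases width_two_gap P hP.2 with h | h
    · rcases InD_third h with h1 | h1
      · exact absurd h1 (not_total_of_width le_rfl hP)
      · exact h1
    · have := gam_ge
      linarith

lemma not_InD_of_width {P : Type} [PartialOrder P] {w : ℕ} (hw : 3 ≤ w) (hP : HasWidth P w) :
    ¬ InD P := by
  intro h
  obtain ⟨s, hs, hc⟩ := hP.1
  have := InD_width_le h s hs
  omega

theorem dAll_ge_of {K : ℕ} (hK : Good K) {c : ℝ} (hc : c ≤ 1 / 3 + 1 / 3000000)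
    (h : ∀ (P : Type) [Fintype P] [PartialOrder P] [Nonempty P], Irreducible P → ¬ Cls K P →
      c ≤ balance P) {w : ℕ} (hw : 3 ≤ w) : c ≤ dAll w := by
  obtain ⟨P0, i1, i2, h1, h2, h3⟩ := exists_few w (by omega)
  unfold dAll
  refine le_csInf ⟨balance P0, P0, i1, i2, h1, rfl⟩ ?_
  rintro d ⟨P, _, _, hP, rfl⟩
  have hne := nonempty_of_width (by omega) hP
  exact (cls_reduction hK hc h P).resolve_left (not_InD_of_width hw hP)

end Pool.Agent.Q288.Bal
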